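import Mathlib

set_option autoImplicit false

universe u v w x y

namespace Pool.Agent.Results.MP_f6eb76_al.HomogeneousEmbedding

/-- A representation `(V, G)` over `K`: a group `G` together with a right module `V` over the
group algebra `KG`, presented as a `K`-module `V` with a `K`-linear right action
`act : V → G → V` of the group `G`. -/
structure GRep (K : Type u) [CommRing K] where
  /-- the underlying `K`-module -/
  V : Type v
  /-- the acting group -/
  G : Type w
  [addCommGroup : AddCommGroup V]
  [module : Module K V]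
  [group : Group G]
  /-- the right action `act a g = a g` -/
  act : V → G → V
  act_add : ∀ (a b : V) (g : G), act (a + b) g = act a g + act b g
  act_smul : ∀ (c : K) (a : V) (g : G), act (c • a) g = c • act a g
  act_one : ∀ a : V, act a 1 = a
  act_mul : ∀ (a : V) (g h : G), act a (g * h) = act (act a g) h

attribute [instance] GRep.addCommGroup GRep.module GRep.group

variable {K : Type u} [CommRing K]

/-- A morphism `(V, G) → (V', G')`: a `K`-linear map `lin : V → V'` and a group homomorphism
`grp : G → G'` with `lin (a g) = (lin a) (grp g)`. -/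
structure Mor (A : GRep.{u, v, w} K) (B : GRep.{u, x, y} K) where
  lin : A.V →ₗ[K] B.V
  grp : A.G →* B.G
  comm : ∀ (a : A.V) (g : A.G), lin (A.act a g) = B.act (lin a) (grp g)

/-- An embedding of representations: a morphism both of whose components are injective. -/
structure Emb (A : GRep.{u, v, w} K) (B : GRep.{u, x, y} K) extends Mor A B where
  lin_injective : Function.Injective lin
  grp_injective : Function.Injective grp

/-- An isomorphism of representations: a morphism both of whose components are bijective. -/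
structure Iso (A : GRep.{u, v, w} K) (B : GRep.{u, x, y} K) extends Mor A B where
  lin_bijective : Function.Bijective lin
  grp_bijective : Function.Bijective grp

/-- The value of the linear part of a morphism. -/
def Mor.onV {A : GRep.{u, v, w} K} {B : GRep.{u, x, y} K} (f : Mor A B) (a : A.V) : B.V :=
  f.lin a

/-- The value of the group part of a morphism. -/
def Mor.onG {A : GRep.{u, v, w} K} {B : GRep.{u, x, y} K} (f : Mor A B) (g : A.G) : B.G :=
  f.grp g

/-- A subrepresentation `(W, H)` of `(V, G)`: a subgroup `H` of `G` and a `KH`-submodule `W`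
of `V`. -/
structure Sub (R : GRep.{u, v, w} K) where
  W : Submodule K R.V
  H : Subgroup R.G
  stable : ∀ a ∈ W, ∀ h ∈ H, R.act a h ∈ W

/-- The action of `H` on `W` for a subrepresentation `(W, H)`. -/
def Sub.act {R : GRep.{u, v, w} K} (S : Sub R) (a : S.W) (h : S.H) : S.W :=
  ⟨R.act a h, S.stable _ a.2 _ h.2⟩

theorem Sub.act_add {R : GRep.{u, v, w} K} (S : Sub R) (a b : S.W) (h : S.H) :
    S.act (a + b) h = S.act a h + S.act b h := Subtype.ext (R.act_add _ _ _)

theorem Sub.act_smul {R : GRep.{u, v, w} K} (S : Sub R) (c : K) (a : S.W) (h : S.H) :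
    S.act (c • a) h = c • S.act a h := Subtype.ext (R.act_smul _ _ _)

theorem Sub.act_one {R : GRep.{u, v, w} K} (S : Sub R) (a : S.W) : S.act a 1 = a :=
  Subtype.ext (R.act_one _)

theorem Sub.act_mul {R : GRep.{u, v, w} K} (S : Sub R) (a : S.W) (g h : S.H) :
    S.act a (g * h) = S.act (S.act a g) h := Subtype.ext (R.act_mul _ _ _)

/-- A subrepresentation, regarded as a representation. -/
def Sub.toGRep {R : GRep.{u, v, w} K} (S : Sub R) : GRep.{u, v, w} K where
  V := S.W
  G := S.H
  act := S.act
  act_add := S.act_add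
  act_smul := S.act_smul
  act_one := S.act_one
  act_mul := S.act_mul

/-- `(V, G)` is finitely generated: the group `G` is finitely generated, and there is a finite
set `s ⊆ V` such that the only `KG`-submodule of `V` containing `s` is `V`. -/
def GRep.FinGen (R : GRep.{u, v, w} K) : Prop :=
  Group.FG R.G ∧ ∃ s : Finset R.V, ∀ U : Submodule K R.V,
    (∀ a ∈ U, ∀ g : R.G, R.act a g ∈ U) → (∀ a ∈ s, a ∈ U) → U = ⊤

/-- The inclusion of a subrepresentation. -/
def Sub.incl {R : GRep.{u, v, w} K} (S : Sub R) : Mor S.toGRep R where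
  lin := S.W.subtype
  grp := S.H.subtype
  comm _ _ := rfl

/-- `(V, G)` is homogeneous: every isomorphism `e` between finitely generated subrepresentations
`S`, `T` is the restriction of an automorphism `E` of `(V, G)`. -/
def GRep.Homogeneous (R : GRep.{u, v, w} K) : Prop :=
  ∀ (S T : Sub R) (e : Iso S.toGRep T.toGRep), S.toGRep.FinGen → T.toGRep.FinGen →
    ∃ E : Iso R R, (∀ a, E.onV (S.incl.onV a) = T.incl.onV (e.onV a)) ∧
      (∀ h, E.onG (S.incl.onG h) = T.incl.onG (e.onG h))

/-! ### Basic facts -/

theorem GRep.act_zero (R : GRep.{u, v, w} K) (g : R.G) : R.act 0 g = 0 := by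
  have := R.act_smul 0 0 g
  simpa using this

/-- the right action of a fixed element as a linear map -/
def GRep.actLin (R : GRep.{u, v, w} K) (g : R.G) : R.V →ₗ[K] R.V where
  toFun a := R.act a g
  map_add' a b := R.act_add a b g
  map_smul' c a := R.act_smul c a g

theorem GRep.act_act_inv (R : GRep.{u, v, w} K) (a : R.V) (g : R.G) :
    R.act (R.act a g) g⁻¹ = a := by
  rw [← R.act_mul, mul_inv_cancel, R.act_one]

theorem GRep.act_inv_act (R : GRep.{u, v, w} K) (a : R.V) (g : R.G) :
    R.act (R.act a g⁻¹) g = a := by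
  rw [← R.act_mul, inv_mul_cancel, R.act_one]

/-- the right action of a fixed element as a linear automorphism -/
def GRep.actEquiv (R : GRep.{u, v, w} K) (g : R.G) : R.V ≃ₗ[K] R.V :=
  LinearEquiv.ofLinearMap (R.actLin g) (R.actLin g⁻¹)
    (LinearMap.ext fun a => R.act_inv_act a g) (LinearMap.ext fun a => R.act_act_inv a g)

/-- the inner automorphism of `(V,G)` attached to `t ∈ G` -/
def GRep.inner (R : GRep.{u, v, w} K) (t : R.G) : Iso R R where
  lin := (R.actEquiv t).toLinearMap
  grp := (MulAut.conj t⁻¹).toMonoidHom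
  comm a g := by
    change R.act (R.act a g) t = R.act (R.act a t) (t⁻¹ * g * t⁻¹⁻¹)
    rw [← R.act_mul, ← R.act_mul]
    congr 1
    group
  lin_bijective := (R.actEquiv t).bijective
  grp_bijective := (MulAut.conj t⁻¹).bijective

/-! ### The one-step extension -/

section Step

variable (G : Type x) [Group G]

/-- index set: a free `G`-set with many orbits -/
abbrev Idx : Type x := G × (G × ℕ)

instance : MulAction G (Idx G) where
  smul g p := (g * p.1, p.2)
  one_smul p := by
    change (1 * p.1, p.2) = p
    simp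
  mul_smul g h p := by
    change (g * h * p.1, p.2) = (g * (h * p.1), p.2)
    rw [mul_assoc]

theorem idx_smul_def (g : G) (p : Idx G) : g • p = (g * p.1, p.2) := rfl

end Step

section Twist

variable {G : Type x} [Group G] {H : Type y} [Group H]

/-- `Idx G`, as a free `H`-set via an injective `b : H → G`, is `H × κ` with `κ = G × ℕ`. -/
theorem exists_free_coord (b : H →* G) (hb : Function.Injective b) :
    ∃ e : Idx G ≃ H × (G × ℕ), ∀ (h : H) (p : Idx G), e (b h • p) = (h * (e p).1, (e p).2) := by
  classical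
  -- left cosets of the range acting on the right: use quotient of G by left multiplication
  let B : Subgroup G := b.range
  let eH : H ≃* B := MonoidHom.ofInjective hb
  -- right cosets representatives
  let Q := Quotient (QuotientGroup.rightRel B)
  let r : Q → G := fun q => q.out
  -- every g is uniquely b h * r q
  have key : ∀ g : G, g * (r (Quotient.mk (QuotientGroup.rightRel B) g))⁻¹ ∈ B := by
    intro g
    have h1 : (QuotientGroup.rightRel B).r (r (Quotient.mk (QuotientGroup.rightRel B) g)) g :=
      Quotient.exact (Quotient.out_eq _)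
    have h2 : QuotientGroup.rightRel B (r (Quotient.mk (QuotientGroup.rightRel B) g)) g := h1
    rwa [QuotientGroup.rightRel_apply] at h2
  have kinv : ∀ (c : B) (g : G), Quotient.mk (QuotientGroup.rightRel B) ((c : G) * g)
      = Quotient.mk (QuotientGroup.rightRel B) g := by
    intro c g
    apply Quotient.sound
    change QuotientGroup.rightRel B _ _
    rw [QuotientGroup.rightRel_apply]
    simp
  let e1 : G ≃ B × Q :=
    { toFun := fun g => (⟨g * (r (Quotient.mk _ g))⁻¹, key g⟩, Quotient.mk _ g)
      invFun := fun p => p.1 * r p.2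
      left_inv := fun g => by simp
      right_inv := fun p => by
        obtain ⟨c, q⟩ := p
        have hq : Quotient.mk (QuotientGroup.rightRel B) ((c : G) * r q) = q := by
          rw [kinv]; exact Quotient.out_eq q
        refine Prod.ext ?_ hq
        apply Subtype.ext
        simp only
        rw [hq]
        simp }
  have he1 : ∀ (c : B) (g : G), e1 (c * g) = (c * (e1 g).1, (e1 g).2) := by
    intro c g
    refine Prod.ext ?_ (kinv c g)
    apply Subtype.ext
    change (c : G) * g * (r (Quotient.mk _ ((c : G) * g)))⁻¹ = (c : G) * (g * (r (Quotient.mk _ g))⁻¹)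
    rw [kinv, mul_assoc]
  -- cardinality
  have hcard : Nonempty (Q × (G × ℕ) ≃ (G × ℕ)) := by
    have hQ : Cardinal.mk Q ≤ Cardinal.mk (G × ℕ) := by
      have h1 : Cardinal.mk Q ≤ Cardinal.mk G := Cardinal.mk_le_of_injective (f := r) (by
        intro a b hab
        have := congrArg (Quotient.mk (QuotientGroup.rightRel B)) hab
        simpa [r] using this)
      have h2 : Cardinal.mk G ≤ Cardinal.mk (G × ℕ) :=
        Cardinal.mk_le_of_injective (f := fun g => (g, 0)) (by intro a b h; simpa using h)
      exact h1.trans h2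
    have hinf : Cardinal.aleph0 ≤ Cardinal.mk (G × ℕ) := by
      rw [Cardinal.aleph0_le_mk_iff]
      infer_instance
    have hne : Cardinal.mk Q ≠ 0 := by
      rw [Cardinal.mk_ne_zero_iff]
      exact ⟨Quotient.mk _ 1⟩
    have : Cardinal.mk (Q × (G × ℕ)) = Cardinal.mk (G × ℕ) := by
      rw [Cardinal.mk_prod, Cardinal.lift_id, Cardinal.lift_id]
      exact Cardinal.mul_eq_right hinf hQ hne
    exact Cardinal.eq.mp this
  obtain ⟨e2⟩ := hcard
  -- assemble
  let e : Idx G ≃ H × (G × ℕ) :=
    (e1.prodCongr (Equiv.refl (G × ℕ))).trans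
      ((Equiv.prodAssoc B Q (G × ℕ)).trans
        (eH.symm.toEquiv.prodCongr e2))
  refine ⟨e, ?_⟩
  intro h p
  obtain ⟨g, q⟩ := p
  have hbh : b h = ((eH h : B) : G) := rfl
  have h3 := he1 (eH h) g
  have h4 : e1 (b h * g) = (eH h * (e1 g).1, (e1 g).2) := by rw [hbh]; exact h3
  change (eH.symm (e1 (b h * g)).1, e2 ((e1 (b h * g)).2, q)) = (h * eH.symm (e1 g).1, e2 ((e1 g).2, q))
  rw [h4]
  simp

end Twist

/-! ### Equivariant extension into coinduced modules -/

section Extension

variable {G : Type x} [Group G] {M : Type x}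

/-- The coinduced module `Idx G → M` with its right `G`-action. -/
def coact (F : Idx G → M) (g : G) : Idx G → M := fun p => F (g • p)

theorem coact_mul (F : Idx G → M) (g h : G) : coact F (g * h) = coact (coact F g) h := by
  funext p
  simp [coact, mul_smul]

variable [AddCommGroup M] [Module K M]

/-- Equivariant maps into a coinduced module extend along equivariant injections. -/
theorem exists_equivariant_extension (A : GRep.{u, x, x} K) (b : A.G →* G)
    (hb : Function.Injective b) (hM : Module.Baer K M)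
    (i₁ i₂ : A.V →ₗ[K] (Idx G → M)) (h₁ : Function.Injective i₁)
    (e₁ : ∀ a h, i₁ (A.act a h) = coact (i₁ a) (b h))
    (e₂ : ∀ a h, i₂ (A.act a h) = coact (i₂ a) (b h)) :
    ∃ φ : (Idx G → M) →ₗ[K] (Idx G → M),
      (∀ F h, φ (coact F (b h)) = coact (φ F) (b h)) ∧ ∀ a, φ (i₁ a) = i₂ a := by
  classical
  obtain ⟨e, he⟩ := exists_free_coord b hb
  -- linear forms
  have hL : ∀ k : G × ℕ, ∃ L : (Idx G → M) →ₗ[K] M, ∀ a, L (i₁ a) = i₂ a (e.symm (1, k)) := by
    intro k
    obtain ⟨L, hL⟩ := hM.extension_property i₁ h₁ ((LinearMap.proj (e.symm (1, k))).comp i₂)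
    refine ⟨L, fun a => ?_⟩
    have := LinearMap.congr_fun hL a
    simpa using this
  choose L hL using hL
  refine ⟨{ toFun := fun F p => L (e p).2 (coact F (b (e p).1))
            map_add' := ?_
            map_smul' := ?_ }, ?_, ?_⟩
  · intro F F'
    funext p
    change L _ (coact (F + F') _) = L _ (coact F _) + L _ (coact F' _)
    rw [← map_add]
    rfl
  · intro c F
    funext p
    change L _ (coact (c • F) _) = c • L _ (coact F _)
    rw [← map_smul]
    rfl
  · intro F h
    funext p
    change L (e p).2 (coact (coact F (b h)) (b (e p).1)) = L (e (b h • p)).2 (coact F (b (e (b h • p)).1))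
    rw [he, ← coact_mul, map_mul]
  · intro a
    funext p
    change L (e p).2 (coact (i₁ a) (b (e p).1)) = i₂ a p
    rw [← e₁, hL, e₂]
    change i₂ a (b (e p).1 • e.symm (1, (e p).2)) = i₂ a p
    have hp : b (e p).1 • e.symm (1, (e p).2) = p := by
      apply e.injective
      rw [he]
      simp
    rw [hp]

end Extension

section StepConstruction

variable {G : Type x} [Group G] (M : Type x) [AddCommGroup M] [Module K M]

/-- permutations of the index set acting on `J × J`, `J = Idx G → M` -/
def permLin (K : Type u) [CommRing K] [Module K M] {X : Type x} :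
    Equiv.Perm X →* (((X → M) × (X → M)) ≃ₗ[K] ((X → M) × (X → M))) where
  toFun π :=
    { toFun := fun F => (fun p => F.1 (π⁻¹ p), fun p => F.2 (π⁻¹ p))
      invFun := fun F => (fun p => F.1 (π p), fun p => F.2 (π p))
      map_add' := fun _ _ => rfl
      map_smul' := fun _ _ => rfl
      left_inv := fun F => by simp
      right_inv := fun F => by simp }
  map_one' := by
    ext <;> rfl
  map_mul' π σ := by
    ext <;> simp [mul_inv_rev]

/-- The one-step extension `(J × J, GL(J × J) × Sym(Idx G))`. -/
def stepRep (K : Type u) [CommRing K] [Module K M] (X : Type x) : GRep.{u, x, x} K where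
  V := (X → M) × (X → M)
  G := (((X → M) × (X → M)) ≃ₗ[K] ((X → M) × (X → M))) × Equiv.Perm X
  act F t := t.1⁻¹ F
  act_add a b g := map_add _ _ _
  act_smul c a g := map_smul _ _ _
  act_one a := by simp
  act_mul a g h := by simp [mul_inv_rev]

end StepConstruction

theorem exists_injective_embedding [Small.{x} K] (V : Type x) [AddCommGroup V] [Module K V] :
    ∃ (M : Type x) (_ : AddCommGroup M) (_ : Module K M) (i : V →ₗ[K] M),
      Function.Injective i ∧ Module.Baer K M := by
  obtain ⟨⟨J, hJ, f, hf⟩⟩ := CategoryTheory.EnoughInjectives.presentation (ModuleCat.of K V)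
  have : Module.Injective K J := Module.injective_module_of_injective_object K J
  exact ⟨J, inferInstance, inferInstance, f.hom, (ModuleCat.mono_iff_injective f).mp hf,
    Module.Baer.of_injective inferInstance⟩

/-- The embedding of `(V, G)` into its one-step extension. -/
def stepEmb (R : GRep.{u, x, x} K) (M : Type x) [AddCommGroup M] [Module K M]
    (i : R.V →ₗ[K] M) (hi : Function.Injective i) : Emb R (stepRep M K (Idx R.G)) where
  lin :=
    { toFun := fun a => (fun p => i (R.act a p.1), 0)
      map_add' := fun a b => by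
        refine Prod.ext ?_ ?_
        · funext p
          change i (R.act (a + b) p.1) = i (R.act a p.1) + i (R.act b p.1)
          rw [R.act_add, map_add]
        · change (0 : Idx R.G → M) = 0 + 0
          simp
      map_smul' := fun c a => by
        refine Prod.ext ?_ ?_
        · funext p
          change i (R.act (c • a) p.1) = c • i (R.act a p.1)
          rw [R.act_smul, map_smul]
        · change (0 : Idx R.G → M) = c • 0
          simp }
  grp :=
    { toFun := fun g => (permLin M K (MulAction.toPerm g), MulAction.toPerm g)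
      map_one' := by
        refine Prod.ext ?_ ?_
        · change permLin M K (MulAction.toPermHom R.G (Idx R.G) 1) = 1
          rw [map_one, map_one]
        · change MulAction.toPermHom R.G (Idx R.G) 1 = 1
          rw [map_one]
      map_mul' := fun g h => by
        refine Prod.ext ?_ ?_
        · change permLin M K (MulAction.toPermHom R.G (Idx R.G) (g * h)) =
            permLin M K (MulAction.toPermHom R.G (Idx R.G) g) *
            permLin M K (MulAction.toPermHom R.G (Idx R.G) h)
          rw [map_mul, map_mul]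
        · change MulAction.toPermHom R.G (Idx R.G) (g * h) =
            MulAction.toPermHom R.G (Idx R.G) g * MulAction.toPermHom R.G (Idx R.G) h
          rw [map_mul] }
  comm a g := by
    refine Prod.ext ?_ ?_
    · funext p
      change i (R.act (R.act a g) p.1) = i (R.act a (g • p).1)
      rw [← R.act_mul]
      rfl
    · funext p
      rfl
  lin_injective := by
    intro a b hab
    have h1 : i (R.act a 1) = i (R.act b 1) := congrFun (congrArg Prod.fst hab) ((1, (1, 0)) : Idx R.G)
    have h2 := hi h1
    rwa [R.act_one, R.act_one] at h2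
  grp_injective := by
    intro g h hgh
    have h1 : MulAction.toPerm g = (MulAction.toPerm h : Equiv.Perm (Idx R.G)) :=
      congrArg Prod.snd hgh
    have h2 := congrArg (fun π : Equiv.Perm (Idx R.G) => (π (1, (1, 0))).1) h1
    have h3 : g * 1 = h * 1 := h2
    simpa using h3

/-- The twisted automorphism of `J × J`. -/
def twistEquiv {X : Type x} {M : Type x} [AddCommGroup M] [Module K M] (τ : Equiv.Perm X)
    (φ ψ : (X → M) →ₗ[K] (X → M)) :
    ((X → M) × (X → M)) ≃ₗ[K] ((X → M) × (X → M)) where
  toFun F := (fun p => (F.2 + φ F.1) (τ⁻¹ p), fun p => (F.1 - ψ (F.2 + φ F.1)) (τ⁻¹ p))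
  invFun F :=
    (((fun p => F.2 (τ p)) + ψ (fun p => F.1 (τ p))),
      (fun p => F.1 (τ p)) - φ ((fun p => F.2 (τ p)) + ψ (fun p => F.1 (τ p))))
  map_add' F F' := by
    refine Prod.ext ?_ ?_
    · funext p
      simp only [Prod.fst_add, Prod.snd_add, map_add, Pi.add_apply]
      abel
    · funext p
      simp only [Prod.fst_add, Prod.snd_add, map_add, Pi.add_apply, Pi.sub_apply]
      abel
  map_smul' c F := by
    refine Prod.ext ?_ ?_
    · funext p
      simp only [Prod.smul_fst, Prod.smul_snd, map_smul, Pi.add_apply, Pi.smul_apply,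
        RingHom.id_apply, smul_add]
    · funext p
      simp only [Prod.smul_fst, Prod.smul_snd, map_smul, map_add, Pi.add_apply, Pi.smul_apply,
        RingHom.id_apply, smul_add, Pi.sub_apply, smul_sub]
  left_inv F := by
    have h0 : ∀ p, τ⁻¹ (τ p) = p := fun p => by simp
    have h1 : (fun p => (F.2 + φ F.1) (τ⁻¹ (τ p))) = F.2 + φ F.1 := by
      funext p
      rw [h0]
    have h2 : (fun p => (F.1 - ψ (F.2 + φ F.1)) (τ⁻¹ (τ p))) = F.1 - ψ (F.2 + φ F.1) := by
      funext p
      rw [h0]
    have h3 : (F.1 - ψ (F.2 + φ F.1)) + ψ (F.2 + φ F.1) = F.1 := sub_add_cancel _ _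
    refine Prod.ext ?_ ?_
    · change (fun p => (F.1 - ψ (F.2 + φ F.1)) (τ⁻¹ (τ p))) +
        ψ (fun p => (F.2 + φ F.1) (τ⁻¹ (τ p))) = F.1
      rw [h1, h2, h3]
    · change (fun p => (F.2 + φ F.1) (τ⁻¹ (τ p))) -
        φ ((fun p => (F.1 - ψ (F.2 + φ F.1)) (τ⁻¹ (τ p))) +
        ψ (fun p => (F.2 + φ F.1) (τ⁻¹ (τ p)))) = F.2
      rw [h1, h2, h3]
      exact add_sub_cancel_right _ _
  right_inv F := by
    refine Prod.ext ?_ ?_
    · funext p
      simp
    · funext p
      simp

theorem step_conj (R : GRep.{u, x, x} K) (M : Type x) [AddCommGroup M] [Module K M]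
    (i : R.V →ₗ[K] M) (hi : Function.Injective i) (hM : Module.Baer K M)
    (A : GRep.{u, x, x} K) (f g : Emb A R) :
    ∃ t : (stepRep M K (Idx R.G)).G,
      (∀ a, (stepRep M K (Idx R.G)).act ((stepEmb R M i hi).lin (f.lin a)) t =
        (stepEmb R M i hi).lin (g.lin a)) ∧
      (∀ h, (stepEmb R M i hi).grp (f.grp h) * t = t * (stepEmb R M i hi).grp (g.grp h)) := by
  classical
  obtain ⟨ef, hef⟩ := exists_free_coord f.grp f.grp_injective
  obtain ⟨eg, heg⟩ := exists_free_coord g.grp g.grp_injective
  let τ : Equiv.Perm (Idx R.G) := ef.trans eg.symm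
  have hτ : ∀ h p, τ (f.grp h • p) = g.grp h • τ p := by
    intro h p
    apply eg.injective
    rw [heg]
    simp [τ, hef]
  have hτ' : ∀ h p, τ⁻¹ (g.grp h • p) = f.grp h • τ⁻¹ p := by
    intro h p
    rw [Equiv.Perm.inv_eq_iff_eq, hτ]
    simp
  -- the coordinate embedding of `V` in `J`
  let c : R.V →ₗ[K] (Idx R.G → M) :=
    { toFun := fun a p => i (R.act a p.1)
      map_add' := fun a b => by
        funext p
        simp [R.act_add]
      map_smul' := fun r a => by
        funext p
        simp [R.act_smul] }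
  have hc : ∀ a (g : R.G), c (R.act a g) = coact (c a) g := by
    intro a g
    funext p
    change i (R.act (R.act a g) p.1) = i (R.act a (g * p.1))
    rw [R.act_mul]
  have hcinj : Function.Injective c := by
    intro a b hab
    have h1 : i (R.act a 1) = i (R.act b 1) := congrFun hab ((1, (1, 0)) : Idx R.G)
    have h2 := hi h1
    rwa [R.act_one, R.act_one] at h2
  -- precomposition with `τ`
  let θ : (Idx R.G → M) →ₗ[K] (Idx R.G → M) :=
    { toFun := fun F p => F (τ p)
      map_add' := fun _ _ => rfl
      map_smul' := fun _ _ => rfl }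
  have hθinj : Function.Injective θ := by
    intro F F' h
    funext p
    have := congrFun h (τ⁻¹ p)
    simpa [θ] using this
  let i₁ : A.V →ₗ[K] (Idx R.G → M) := c.comp f.lin
  let i₂ : A.V →ₗ[K] (Idx R.G → M) := θ.comp (c.comp g.lin)
  have h₁ : Function.Injective i₁ := hcinj.comp f.lin_injective
  have h₂ : Function.Injective i₂ := hθinj.comp (hcinj.comp g.lin_injective)
  have e₁ : ∀ a h, i₁ (A.act a h) = coact (i₁ a) (f.grp h) := by
    intro a h
    change c (f.lin (A.act a h)) = coact (c (f.lin a)) (f.grp h)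
    rw [f.comm, hc]
  have e₂ : ∀ a h, i₂ (A.act a h) = coact (i₂ a) (f.grp h) := by
    intro a h
    change θ (c (g.lin (A.act a h))) = coact (θ (c (g.lin a))) (f.grp h)
    rw [g.comm, hc]
    funext p
    change c (g.lin a) (g.grp h • τ p) = c (g.lin a) (τ (f.grp h • p))
    rw [hτ]
  obtain ⟨φ, hφ, hφi⟩ := exists_equivariant_extension A f.grp f.grp_injective hM i₁ i₂ h₁ e₁ e₂
  obtain ⟨ψ, hψ, hψi⟩ := exists_equivariant_extension A f.grp f.grp_injective hM i₂ i₁ h₂ e₂ e₁
  let T := twistEquiv (K := K) (M := M) τ φ ψ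
  refine ⟨(T⁻¹, τ⁻¹), ?_, ?_⟩
  · intro a
    change (T⁻¹)⁻¹ ((c (f.lin a), 0) : (Idx R.G → M) × (Idx R.G → M)) = (c (g.lin a), 0)
    rw [inv_inv]
    change ((fun p => (0 + φ (i₁ a)) (τ⁻¹ p), fun p => (i₁ a - ψ (0 + φ (i₁ a))) (τ⁻¹ p)) :
      (Idx R.G → M) × (Idx R.G → M)) = (c (g.lin a), 0)
    rw [zero_add, hφi, hψi]
    refine Prod.ext ?_ ?_
    · funext p
      change c (g.lin a) (τ (τ⁻¹ p)) = c (g.lin a) p
      simp
    · funext p
      simp
  · intro h
    have key : ∀ F : (Idx R.G → M) × (Idx R.G → M),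
        T (permLin M K (MulAction.toPerm (f.grp h)) F) =
          permLin M K (MulAction.toPerm (g.grp h)) (T F) := by
      intro F
      obtain ⟨F₁, F₂⟩ := F
      have hd : ∀ (k : R.G) (F : Idx R.G → M),
          (fun p => F ((MulAction.toPerm k : Equiv.Perm (Idx R.G))⁻¹ p)) = coact F k⁻¹ := by
        intro k F
        funext p
        change F ((MulAction.toPermHom R.G (Idx R.G) k)⁻¹ p) = F (k⁻¹ • p)
        rw [← map_inv]
        rfl
      have hfi : (f.grp h)⁻¹ = f.grp h⁻¹ := (map_inv _ _).symm
      have hgi : (g.grp h)⁻¹ = g.grp h⁻¹ := (map_inv _ _).symm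
      have hsum : ∀ (F F' : Idx R.G → M) (k : R.G), coact F k + coact F' k = coact (F + F') k :=
        fun _ _ _ => rfl
      have hsub : ∀ (F F' : Idx R.G → M) (k : R.G), coact F k - coact F' k = coact (F - F') k :=
        fun _ _ _ => rfl
      have hΘ : ∀ (F : Idx R.G → M), (fun p => (coact F (f.grp h⁻¹)) (τ⁻¹ p)) =
          coact (fun p => F (τ⁻¹ p)) (g.grp h⁻¹) := by
        intro F
        funext p
        change F (f.grp h⁻¹ • τ⁻¹ p) = F (τ⁻¹ (g.grp h⁻¹ • p))
        rw [hτ']
      refine Prod.ext ?_ ?_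
      · change (fun p => ((fun p => F₂ ((MulAction.toPerm (f.grp h))⁻¹ p)) +
            φ (fun p => F₁ ((MulAction.toPerm (f.grp h))⁻¹ p))) (τ⁻¹ p)) =
          (fun p => (fun p => (F₂ + φ F₁) (τ⁻¹ p)) ((MulAction.toPerm (g.grp h))⁻¹ p))
        refine Eq.trans ?_ (hd (g.grp h) (fun p => (F₂ + φ F₁) (τ⁻¹ p))).symm
        rw [hd, hd, hfi, hgi, hφ, hsum, hΘ]
      · change (fun p => ((fun p => F₁ ((MulAction.toPerm (f.grp h))⁻¹ p)) -
            ψ ((fun p => F₂ ((MulAction.toPerm (f.grp h))⁻¹ p)) +
            φ (fun p => F₁ ((MulAction.toPerm (f.grp h))⁻¹ p)))) (τ⁻¹ p)) =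
          (fun p => (fun p => (F₁ - ψ (F₂ + φ F₁)) (τ⁻¹ p)) ((MulAction.toPerm (g.grp h))⁻¹ p))
        refine Eq.trans ?_ (hd (g.grp h) (fun p => (F₁ - ψ (F₂ + φ F₁)) (τ⁻¹ p))).symm
        rw [hd, hd, hfi, hgi, hφ, hsum, hψ, hsub, hΘ]
    refine Prod.ext ?_ ?_
    · change permLin M K (MulAction.toPerm (f.grp h)) * T⁻¹ =
        T⁻¹ * permLin M K (MulAction.toPerm (g.grp h))
      rw [eq_inv_mul_iff_mul_eq, ← mul_assoc, mul_inv_eq_iff_eq_mul]
      ext1 F
      exact key F
    · change (MulAction.toPerm (f.grp h) : Equiv.Perm (Idx R.G)) * τ⁻¹ =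
        τ⁻¹ * MulAction.toPerm (g.grp h)
      ext1 p
      exact (hτ' h p).symm


/-- One step: every representation embeds in one in which any two embeddings of a
representation into the smaller one are conjugate. -/
theorem exists_step [Small.{x} K] (R : GRep.{u, x, x} K) :
    ∃ (S : GRep.{u, x, x} K) (j : Emb R S), ∀ (A : GRep.{u, x, x} K) (f g : Emb A R),
      ∃ t : S.G, (∀ a, S.act (j.lin (f.lin a)) t = j.lin (g.lin a)) ∧
        (∀ h, j.grp (f.grp h) * t = t * j.grp (g.grp h)) := by
  obtain ⟨M, _, _, i, hi, hM⟩ := exists_injective_embedding (K := K) R.V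
  exact ⟨stepRep M K (Idx R.G), stepEmb R M i hi, fun A f g => step_conj R M i hi hM A f g⟩

/-! ### Unions of chains -/

section Chain

variable (S : ℕ → GRep.{u, x, x} K) (ι : ∀ n, Emb (S n) (S (n + 1)))

/-- transition maps of modules -/
def linTrans (i j : ℕ) (h : i ≤ j) : (S i).V →ₗ[K] (S j).V :=
  Nat.leRecOn (C := fun j => (S i).V →ₗ[K] (S j).V) h (fun {k} f => (ι k).lin.comp f) LinearMap.id

/-- transition maps of groups -/
def grpTrans (i j : ℕ) (h : i ≤ j) : (S i).G →* (S j).G :=
  Nat.leRecOn (C := fun j => (S i).G →* (S j).G) h (fun {k} f => (ι k).grp.comp f) (MonoidHom.id _)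

theorem linTrans_self (i : ℕ) (h : i ≤ i) : linTrans S ι i i h = LinearMap.id := by
  unfold linTrans
  rw [Nat.leRecOn_self]

theorem grpTrans_self (i : ℕ) (h : i ≤ i) : grpTrans S ι i i h = MonoidHom.id _ := by
  unfold grpTrans
  rw [Nat.leRecOn_self]

theorem linTrans_succ (i j : ℕ) (h : i ≤ j) (h' : i ≤ j + 1) :
    linTrans S ι i (j + 1) h' = (ι j).lin.comp (linTrans S ι i j h) := by
  unfold linTrans
  rw [Nat.leRecOn_succ h]

theorem grpTrans_succ (i j : ℕ) (h : i ≤ j) (h' : i ≤ j + 1) :
    grpTrans S ι i (j + 1) h' = (ι j).grp.comp (grpTrans S ι i j h) := by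
  unfold grpTrans
  rw [Nat.leRecOn_succ h]

instance linSystem : DirectedSystem (fun n => (S n).V) (fun i j h => linTrans S ι i j h) where
  map_self i a := by rw [linTrans_self]; rfl
  map_map k j i hij hjk a := by
    induction hjk with
    | refl => rw [linTrans_self]; rfl
    | step hjk ih =>
      rename_i m
      rw [linTrans_succ S ι j m hjk, linTrans_succ S ι i m (hij.trans hjk)]
      simp only [LinearMap.comp_apply]
      rw [ih]

instance grpSystem : DirectedSystem (fun n => (S n).G) (fun i j h => grpTrans S ι i j h) where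
  map_self i a := by rw [grpTrans_self]; rfl
  map_map k j i hij hjk a := by
    induction hjk with
    | refl => rw [grpTrans_self]; rfl
    | step hjk ih =>
      rename_i m
      rw [grpTrans_succ S ι j m hjk, grpTrans_succ S ι i m (hij.trans hjk)]
      simp only [MonoidHom.comp_apply]
      rw [ih]

theorem trans_comm (i j : ℕ) (h : i ≤ j) (a : (S i).V) (g : (S i).G) :
    linTrans S ι i j h ((S i).act a g) =
      (S j).act (linTrans S ι i j h a) (grpTrans S ι i j h g) := by
  induction h with
  | refl => rw [linTrans_self, grpTrans_self]; rfl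
  | step h ih =>
    rename_i m
    rw [linTrans_succ S ι i m h, grpTrans_succ S ι i m h]
    simp only [LinearMap.comp_apply, MonoidHom.comp_apply]
    rw [ih, (ι m).comm]

theorem linTrans_injective (i j : ℕ) (h : i ≤ j) : Function.Injective (linTrans S ι i j h) := by
  induction h with
  | refl => rw [linTrans_self]; exact Function.injective_id
  | step h ih =>
    rename_i m
    rw [linTrans_succ S ι i m h]
    exact (ι m).lin_injective.comp ih

theorem grpTrans_injective (i j : ℕ) (h : i ≤ j) : Function.Injective (grpTrans S ι i j h) := by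
  induction h with
  | refl => rw [grpTrans_self]; exact Function.injective_id
  | step h ih =>
    rename_i m
    rw [grpTrans_succ S ι i m h]
    exact (ι m).grp_injective.comp ih

theorem linMk (i j : ℕ) (h : i ≤ j) (a : (S i).V) :
    (⟦⟨i, a⟩⟧ : DirectLimit (fun n => (S n).V) (fun i j h => linTrans S ι i j h)) =
      ⟦⟨j, linTrans S ι i j h a⟩⟧ :=
  (DirectLimit.mk_apply (F := fun n => (S n).V) (f := fun i j h => linTrans S ι i j h)
    i j a h).symm

theorem grpMk (i j : ℕ) (h : i ≤ j) (a : (S i).G) :
    (⟦⟨i, a⟩⟧ : DirectLimit (fun n => (S n).G) (fun i j h => grpTrans S ι i j h)) =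
      ⟦⟨j, grpTrans S ι i j h a⟩⟧ :=
  (DirectLimit.mk_apply (F := fun n => (S n).G) (f := fun i j h => grpTrans S ι i j h)
    i j a h).symm

/-- The union of an increasing sequence of representations. -/
noncomputable def chainLimit : GRep.{u, x, x} K where
  V := DirectLimit (fun n => (S n).V) (fun i j h => linTrans S ι i j h)
  G := DirectLimit (fun n => (S n).G) (fun i j h => grpTrans S ι i j h)
  act := DirectLimit.map₂ _ _ _ (fun i a g => (S i).act a g)
    (fun i j h a g => trans_comm S ι i j h a g)
  act_add := by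
    intro a b g
    obtain ⟨i, a, b, g, rfl, rfl, rfl⟩ : ∃ i, ∃ (a' b' : (S i).V) (g' : (S i).G),
        a = ⟦⟨i, a'⟩⟧ ∧ b = ⟦⟨i, b'⟩⟧ ∧ g = ⟦⟨i, g'⟩⟧ := by
      obtain ⟨i, a', b', rfl, rfl⟩ := DirectLimit.exists_eq_mk₂ _ a b
      obtain ⟨j, g', rfl⟩ := DirectLimit.exists_eq_mk _ g
      refine ⟨max i j, linTrans S ι i _ (le_max_left _ _) a', linTrans S ι i _ (le_max_left _ _) b',
        grpTrans S ι j _ (le_max_right _ _) g', ?_, ?_, ?_⟩
      · exact linMk S ι i _ _ a'
      · exact linMk S ι i _ _ b'
      · exact grpMk S ι j _ _ g'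
    rw [DirectLimit.add_def, DirectLimit.map₂_def, DirectLimit.map₂_def, DirectLimit.map₂_def,
      DirectLimit.add_def, (S i).act_add]
  act_smul := by
    intro c a g
    obtain ⟨i, a, g, rfl, rfl⟩ : ∃ i, ∃ (a' : (S i).V) (g' : (S i).G),
        a = ⟦⟨i, a'⟩⟧ ∧ g = ⟦⟨i, g'⟩⟧ := by
      obtain ⟨i, a', rfl⟩ := DirectLimit.exists_eq_mk _ a
      obtain ⟨j, g', rfl⟩ := DirectLimit.exists_eq_mk _ g
      refine ⟨max i j, linTrans S ι i _ (le_max_left _ _) a',
        grpTrans S ι j _ (le_max_right _ _) g', ?_, ?_⟩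
      · exact linMk S ι i _ _ a'
      · exact grpMk S ι j _ _ g'
    rw [DirectLimit.smul_def, DirectLimit.map₂_def, DirectLimit.map₂_def,
      DirectLimit.smul_def, (S i).act_smul]
  act_one := by
    intro a
    obtain ⟨i, a, rfl⟩ := DirectLimit.exists_eq_mk _ a
    rw [DirectLimit.one_def i, DirectLimit.map₂_def, (S i).act_one]
  act_mul := by
    intro a g h
    obtain ⟨i, a, g, h, rfl, rfl, rfl⟩ : ∃ i, ∃ (a' : (S i).V) (g' h' : (S i).G),
        a = ⟦⟨i, a'⟩⟧ ∧ g = ⟦⟨i, g'⟩⟧ ∧ h = ⟦⟨i, h'⟩⟧ := by
      obtain ⟨i, a', rfl⟩ := DirectLimit.exists_eq_mk _ a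
      obtain ⟨j, g', h', rfl, rfl⟩ := DirectLimit.exists_eq_mk₂ _ g h
      refine ⟨max i j, linTrans S ι i _ (le_max_left _ _) a',
        grpTrans S ι j _ (le_max_right _ _) g', grpTrans S ι j _ (le_max_right _ _) h', ?_, ?_, ?_⟩
      · exact linMk S ι i _ _ a'
      · exact grpMk S ι j _ _ g'
      · exact grpMk S ι j _ _ h'
    rw [DirectLimit.mul_def, DirectLimit.map₂_def, DirectLimit.map₂_def, DirectLimit.map₂_def,
      (S i).act_mul]

/-- The embedding of a member of the chain in the union. -/
noncomputable def chainEmb (n : ℕ) : Emb (S n) (chainLimit S ι) where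
  lin :=
    { toFun := fun a => (⟦⟨n, a⟩⟧ : DirectLimit (fun n => (S n).V) (fun i j h => linTrans S ι i j h))
      map_add' := fun a b => (DirectLimit.add_def (f := fun i j h => linTrans S ι i j h) n a b).symm
      map_smul' := fun _ _ => rfl }
  grp :=
    { toFun := fun g => (⟦⟨n, g⟩⟧ : DirectLimit (fun n => (S n).G) (fun i j h => grpTrans S ι i j h))
      map_one' := (DirectLimit.one_def (f := fun i j h => grpTrans S ι i j h) n).symm
      map_mul' := fun a b =>
        (DirectLimit.mul_def (f := fun i j h => grpTrans S ι i j h) n a b).symm }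
  comm a g := (DirectLimit.map₂_def (fun i j h => linTrans S ι i j h)
    (fun i j h => grpTrans S ι i j h) (fun i j h => linTrans S ι i j h)
    (fun i a g => (S i).act a g) (fun i j h a g => trans_comm S ι i j h a g) n a g).symm
  lin_injective := DirectLimit.mk_injective _ (fun i j h => linTrans_injective S ι i j h) n
  grp_injective := DirectLimit.mk_injective _ (fun i j h => grpTrans_injective S ι i j h) n

theorem chainEmb_lin_succ (n : ℕ) (a : (S n).V) :
    (chainEmb S ι (n + 1)).lin ((ι n).lin a) = (chainEmb S ι n).lin a := by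
  have h := DirectLimit.mk_apply (f := fun i j h => linTrans S ι i j h) n (n + 1) a (Nat.le_succ n)
  have h2 : linTrans S ι n (n + 1) (Nat.le_succ n) a = (ι n).lin a := by
    rw [linTrans_succ S ι n n le_rfl, linTrans_self]
    rfl
  rw [h2] at h
  exact h

theorem chainEmb_grp_succ (n : ℕ) (a : (S n).G) :
    (chainEmb S ι (n + 1)).grp ((ι n).grp a) = (chainEmb S ι n).grp a := by
  have h := DirectLimit.mk_apply (f := fun i j h => grpTrans S ι i j h) n (n + 1) a (Nat.le_succ n)
  have h2 : grpTrans S ι n (n + 1) (Nat.le_succ n) a = (ι n).grp a := by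
    rw [grpTrans_succ S ι n n le_rfl, grpTrans_self]
    rfl
  rw [h2] at h
  exact h

theorem chain_lin_surj (a : (chainLimit S ι).V) : ∃ n b, (chainEmb S ι n).lin b = a := by
  obtain ⟨i, a', h⟩ := DirectLimit.exists_eq_mk (fun i j h => linTrans S ι i j h) a
  exact ⟨i, a', h.symm⟩

theorem chain_grp_surj (a : (chainLimit S ι).G) : ∃ n b, (chainEmb S ι n).grp b = a := by
  obtain ⟨i, a', h⟩ := DirectLimit.exists_eq_mk (fun i j h => grpTrans S ι i j h) a
  exact ⟨i, a', h.symm⟩

end Chain


/-! ### Factoring finitely generated representations through a member of a chain -/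

section Factor

variable (S : ℕ → GRep.{u, x, x} K) (ι : ∀ n, Emb (S n) (S (n + 1))) (L : GRep.{u, x, x} K)
  (j : ∀ n, Emb (S n) L)

theorem exists_factor
    (hlin : ∀ n a, (j (n + 1)).lin ((ι n).lin a) = (j n).lin a)
    (hgrp : ∀ n a, (j (n + 1)).grp ((ι n).grp a) = (j n).grp a)
    (slin : ∀ a : L.V, ∃ n b, (j n).lin b = a)
    (sgrp : ∀ a : L.G, ∃ n b, (j n).grp b = a)
    (A : GRep.{u, x, x} K) (hA : A.FinGen) (F : Emb A L) :
    ∃ N, ∀ n, N ≤ n → ∃ f : Emb A (S n), (∀ a, (j n).lin (f.lin a) = F.lin a) ∧
      (∀ h, (j n).grp (f.grp h) = F.grp h) := by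
  classical
  obtain ⟨hG, s, hs⟩ := hA
  have monoL : Monotone (fun n => LinearMap.range (j n).lin) := by
    apply monotone_nat_of_le_succ
    rintro n _ ⟨a, rfl⟩
    exact ⟨(ι n).lin a, hlin n a⟩
  have monoG : Monotone (fun n => MonoidHom.range (j n).grp) := by
    apply monotone_nat_of_le_succ
    rintro n _ ⟨a, rfl⟩
    exact ⟨(ι n).grp a, hgrp n a⟩
  obtain ⟨T, hT⟩ := Group.fg_def.mp hG
  choose nL hnL using slin
  choose nG hnG using sgrp
  let N := max (s.sup (fun a => nL (F.lin a))) (T.sup (fun h => nG (F.grp h)))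
  refine ⟨N, fun n hn => ?_⟩
  have rG : ∀ h, F.grp h ∈ MonoidHom.range (j n).grp := by
    have : (MonoidHom.range (j n).grp).comap F.grp = ⊤ := by
      rw [eq_top_iff, ← hT, Subgroup.closure_le]
      intro h hh
      have h1 : nG (F.grp h) ≤ n :=
        (Finset.le_sup (f := fun h => nG (F.grp h)) hh).trans ((le_max_right _ _).trans hn)
      exact monoG h1 (hnG (F.grp h))
    intro h
    have h1 : h ∈ (MonoidHom.range (j n).grp).comap F.grp := by rw [this]; trivial
    exact h1
  have rL : ∀ a, F.lin a ∈ LinearMap.range (j n).lin := by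
    have : (LinearMap.range (j n).lin).comap F.lin = ⊤ := by
      apply hs
      · rintro a ⟨b, hb⟩ g
        obtain ⟨k, hk⟩ := rG g
        refine ⟨(S n).act b k, ?_⟩
        rw [(j n).comm, hb, hk, F.comm]
      · intro a ha
        have h1 : nL (F.lin a) ≤ n :=
          (Finset.le_sup (f := fun a => nL (F.lin a)) ha).trans ((le_max_left _ _).trans hn)
        exact monoL h1 (hnL (F.lin a))
    intro a
    have h1 : a ∈ (LinearMap.range (j n).lin).comap F.lin := by rw [this]; trivial
    exact h1
  let eL := LinearEquiv.ofInjective (j n).lin (j n).lin_injective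
  let eG := MonoidHom.ofInjective (j n).grp_injective
  have heL : ∀ y, (j n).lin (eL.symm y) = y := by
    intro y
    have := eL.apply_symm_apply y
    exact congrArg Subtype.val this
  have heG : ∀ y, (j n).grp (eG.symm y) = y := by
    intro y
    have := eG.apply_symm_apply y
    exact congrArg Subtype.val this
  let fl : A.V →ₗ[K] (S n).V := eL.symm.toLinearMap.comp (F.lin.codRestrict _ rL)
  let fg : A.G →* (S n).G := eG.symm.toMonoidHom.comp (F.grp.codRestrict _ rG)
  have h1 : ∀ a, (j n).lin (fl a) = F.lin a := fun a => heL _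
  have h2 : ∀ h, (j n).grp (fg h) = F.grp h := fun h => heG _
  refine ⟨{ lin := fl, grp := fg, comm := ?_, lin_injective := ?_, grp_injective := ?_ }, h1, h2⟩
  · intro a g
    apply (j n).lin_injective
    rw [h1, (j n).comm, h1, h2, F.comm]
  · intro a b hab
    apply F.lin_injective
    rw [← h1, ← h1, hab]
  · intro a b hab
    apply F.grp_injective
    rw [← h2, ← h2, hab]

end Factor

/-- Every representation whose group and module live in a large enough universe embeds in a
homogeneous one. -/
theorem exists_homogeneous [Small.{x} K] (R : GRep.{u, x, x} K) :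
    ∃ L : GRep.{u, x, x} K, L.Homogeneous ∧ Nonempty (Emb R L) := by
  classical
  choose nxt nι hn using (exists_step (K := K) : ∀ R : GRep.{u, x, x} K, _)
  let S : ℕ → GRep.{u, x, x} K := fun n => Nat.rec R (fun _ A => nxt A) n
  let ι : ∀ n, Emb (S n) (S (n + 1)) := fun n => nι (S n)
  have hι : ∀ n (A : GRep.{u, x, x} K) (f g : Emb A (S n)),
      ∃ t : (S (n + 1)).G, (∀ a, (S (n + 1)).act ((ι n).lin (f.lin a)) t = (ι n).lin (g.lin a)) ∧
        (∀ h, (ι n).grp (f.grp h) * t = t * (ι n).grp (g.grp h)) := fun n => hn (S n)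
  refine ⟨chainLimit S ι, ?_, ⟨chainEmb S ι 0⟩⟩
  intro P Q e hP hQ
  let j := chainEmb S ι
  let F : Emb P.toGRep (chainLimit S ι) :=
    { lin := P.W.subtype
      grp := P.H.subtype
      comm := fun _ _ => rfl
      lin_injective := Subtype.val_injective
      grp_injective := Subtype.val_injective }
  let F' : Emb P.toGRep (chainLimit S ι) :=
    { lin := Q.W.subtype.comp e.lin
      grp := Q.H.subtype.comp e.grp
      comm := fun a g => by
        change Q.W.subtype (e.lin (P.toGRep.act a g)) = _
        rw [e.comm]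
        rfl
      lin_injective := by
        have h1 : Function.Injective Q.W.subtype := Subtype.val_injective
        exact h1.comp e.lin_bijective.1
      grp_injective := by
        have h1 : Function.Injective Q.H.subtype := Subtype.val_injective
        exact h1.comp e.grp_bijective.1 }
  obtain ⟨N₁, hN₁⟩ := exists_factor S ι (chainLimit S ι) j (chainEmb_lin_succ S ι)
    (chainEmb_grp_succ S ι) (chain_lin_surj S ι) (chain_grp_surj S ι) P.toGRep hP F
  obtain ⟨N₂, hN₂⟩ := exists_factor S ι (chainLimit S ι) j (chainEmb_lin_succ S ι)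
    (chainEmb_grp_succ S ι) (chain_lin_surj S ι) (chain_grp_surj S ι) P.toGRep hP F'
  obtain ⟨n, hn₁, hn₂⟩ : ∃ n, N₁ ≤ n ∧ N₂ ≤ n := ⟨max N₁ N₂, le_max_left _ _, le_max_right _ _⟩
  obtain ⟨f, hf, hf'⟩ := hN₁ n hn₁
  obtain ⟨g, hg, hg'⟩ := hN₂ n hn₂
  obtain ⟨t, ht, ht'⟩ := hι n P.toGRep f g
  let T := (j (n + 1)).grp t
  have key1 : ∀ a, (chainLimit S ι).act (F.lin a) T = F'.lin a := by
    intro a
    rw [← hf, ← hg, ← chainEmb_lin_succ S ι n, ← chainEmb_lin_succ S ι n, ← ht]
    exact ((j (n + 1)).comm _ _).symm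
  have key2 : ∀ h, F.grp h * T = T * F'.grp h := by
    intro h
    have e1 : (j (n + 1)).grp ((ι n).grp (f.grp h)) = F.grp h := by
      rw [← hf']
      exact chainEmb_grp_succ S ι n _
    have e2 : (j (n + 1)).grp ((ι n).grp (g.grp h)) = F'.grp h := by
      rw [← hg']
      exact chainEmb_grp_succ S ι n _
    rw [← e1, ← e2, ← map_mul, ht', map_mul]
  refine ⟨(chainLimit S ι).inner T, ?_, ?_⟩
  · intro a
    exact key1 a
  · intro h
    change T⁻¹ * F.grp h * T⁻¹⁻¹ = F'.grp h
    rw [inv_inv, mul_assoc]
    have h3 := key2 h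
    rw [h3, inv_mul_cancel_left]

/-- Change of universe. -/
def liftRep (R : GRep.{u, v, w} K) : GRep.{u, max u v w, max u v w} K where
  V := ULift.{max u w} R.V
  G := ULift.{max u v} R.G
  act a g := ⟨R.act a.down g.down⟩
  act_add _ _ _ := ULift.ext _ _ (R.act_add _ _ _)
  act_smul _ _ _ := ULift.ext _ _ (R.act_smul _ _ _)
  act_one _ := ULift.ext _ _ (R.act_one _)
  act_mul _ _ _ := ULift.ext _ _ (R.act_mul _ _ _)

/-- The embedding of a representation in its universe lift. -/
def liftEmb (R : GRep.{u, v, w} K) : Emb R (liftRep R) where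
  lin := ULift.moduleEquiv.symm.toLinearMap
  grp :=
    { toFun := fun g => ULift.up g
      map_one' := rfl
      map_mul' := fun _ _ => rfl }
  comm _ _ := rfl
  lin_injective := ULift.moduleEquiv.symm.injective
  grp_injective := fun _ _ h => ULift.up_injective h

/-- **Every representation over every commutative ring embeds in a homogeneous one.** -/
theorem result (K : Type u) [CommRing K] (R : GRep.{u, v, w} K) :
    ∃ S : GRep.{u, max u v w, max u v w} K, S.Homogeneous ∧ Nonempty (Emb R S) := by
  have : Small.{max u v w} K := small_max.{max v w} K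
  obtain ⟨L, hL, ⟨f⟩⟩ := exists_homogeneous (liftRep R)
  let E : Emb R L :=
    { lin := f.lin.comp (liftEmb R).lin
      grp := f.grp.comp (liftEmb R).grp
      comm := by
        intro a g
        change f.lin ((liftEmb R).lin (R.act a g)) = _
        rw [(liftEmb R).comm, f.comm]
        rfl
      lin_injective := f.lin_injective.comp (liftEmb R).lin_injective
      grp_injective := f.grp_injective.comp (liftEmb R).grp_injective }
  exact ⟨L, hL, ⟨E⟩⟩

end Pool.Agent.Results.MP_f6eb76_al.HomogeneousEmbedding
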